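import Mathlib

/-!
# TOWERS, T4: diagonal matrices of determinant one and transvections
-/

set_option autoImplicit false

namespace Pool.Agent.Helper98.TW

open Matrix

variable {n : Type*} [Fintype n] [DecidableEq n] {F : Type*} [Field F]

/-- the Weyl element -/
theorem weyl {a b : n} (hab : a ≠ b) (c d : F) (h : c * d = 1) :
    transvection a b c * transvection b a (-d) * transvection a b c =
      1 - single a a 1 - single b b 1 + c • single a b 1 - d • single b a (1 : F) := by
  have t : ∀ (i j : n) (x : F), transvection i j x = 1 + x • single i j 1 := by
    intro i j x
    rw [transvection, Matrix.smul_single, smul_eq_mul, mul_one]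
  rw [t, t]
  set e : Matrix n n F := single a b 1
  set f : Matrix n n F := single b a 1
  set p : Matrix n n F := single a a 1
  set q : Matrix n n F := single b b 1
  have ee : e * e = 0 := single_mul_single_of_ne _ _ _ _ hab.symm _
  have ef : e * f = p := by simp [e, f, p]
  have fe : f * e = q := by simp [e, f, q]
  have pe : p * e = e := by simp [e, p]
  simp only [mul_add, add_mul, one_mul, mul_one, smul_mul_assoc, mul_smul_comm, ee, ef, fe, pe,
    smul_zero, add_zero]
  have h1 : c * -d = -1 := by linear_combination -h
  have h2 : d * c = 1 := by linear_combination h
  match_scalars <;> first | ring1 | linear_combination h | linear_combination -h | linear_combination (-c) * h | linear_combination c * h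

/-- diagonal matrices with two nontrivial entries are products of transvections -/
theorem two_diag {a b : n} (hab : a ≠ b) (c d : F) (h : c * d = 1) :
    (transvection a b c * transvection b a (-d) * transvection a b c) *
      (transvection a b (-1) * transvection b a (-(-1)) * transvection a b (-1)) =
      diagonal (Function.update (Function.update (fun _ => (1 : F)) a c) b d) := by
  rw [weyl hab c d h, weyl hab (-1) (-1) (by ring)]
  have hba : b ≠ a := hab.symm
  have hD : diagonal (Function.update (Function.update (fun _ => (1 : F)) a c) b d) =
      1 - single a a 1 - single b b 1 + c • single a a 1 + d • single b b (1 : F) := by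
    ext i j
    simp only [Matrix.add_apply, Matrix.sub_apply, Matrix.smul_apply, Matrix.one_apply,
      Matrix.single_apply, Matrix.diagonal_apply, smul_eq_mul]
    by_cases hij : i = j
    · subst hij
      by_cases h1 : i = b
      · subst h1
        simp [hab]
      · by_cases h2 : i = a
        · subst h2
          simp [Function.update_of_ne h1, hba]
        · simp [Function.update_of_ne h1, Function.update_of_ne h2, Ne.symm h1, Ne.symm h2]
    · have h1 : ¬ (a = i ∧ a = j) := fun h => hij (h.1.symm.trans h.2)
      have h2 : ¬ (b = i ∧ b = j) := fun h => hij (h.1.symm.trans h.2)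
      simp [hij, h1, h2]
  rw [hD]
  set e : Matrix n n F := single a b 1
  set f : Matrix n n F := single b a 1
  set p : Matrix n n F := single a a 1
  set q : Matrix n n F := single b b 1
  have ee : e * e = 0 := single_mul_single_of_ne _ _ _ _ hab.symm _
  have ff : f * f = 0 := single_mul_single_of_ne _ _ _ _ hab _
  have ef : e * f = p := by simp [e, f, p]
  have fe : f * e = q := by simp [e, f, q]
  have pe : p * e = e := by simp [e, p]
  have ep : e * p = 0 := single_mul_single_of_ne _ _ _ _ hab.symm _
  have eq' : e * q = e := by simp [e, q]
  have qe : q * e = 0 := single_mul_single_of_ne _ _ _ _ hba _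
  have pf : p * f = 0 := single_mul_single_of_ne _ _ _ _ hab _
  have fp : f * p = f := by simp [f, p]
  have fq : f * q = 0 := single_mul_single_of_ne _ _ _ _ hab _
  have qf : q * f = f := by simp [f, q]
  have pp : p * p = p := by simp [p]
  have qq : q * q = q := by simp [q]
  have pq : p * q = 0 := single_mul_single_of_ne _ _ _ _ hab _
  have qp : q * p = 0 := single_mul_single_of_ne _ _ _ _ hba _
  simp only [mul_add, add_mul, mul_sub, sub_mul, one_mul, mul_one, smul_mul_assoc, mul_smul_comm,
    ee, ff, ef, fe, pe, ep, eq', qe, pf, fp, fq, qf, pp, qq, pq, qp,
    smul_zero, add_zero, zero_add, sub_zero, zero_sub]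
  module

end Pool.Agent.Helper98.TW
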