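import Pool.Agent.Helper98.TW.Diag

/-!
# TOWERS, T4: products of groups `SL(m, ℤ)` are Zariski dense in products of `SL(m)`
-/

set_option autoImplicit false

namespace Pool.Agent.Helper98.TW

open Matrix MvPolynomial

section

variable {Ω : Type*} [Field Ω] {r : ℕ} {m : Fin r → ℕ}

/-- families of square matrices -/
abbrev Fam (Ω : Type*) {r : ℕ} (m : Fin r → ℕ) : Type _ :=
  ∀ i : Fin r, Matrix (Fin (m i)) (Fin (m i)) Ω

/-- the value of a polynomial in the entries -/
noncomputable def ev (x : Fam Ω m) (F : MvPolynomial (Σ i : Fin r, Fin (m i) × Fin (m i)) Ω) : Ω :=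
  eval (fun v => x v.1 v.2.1 v.2.2) F

/-- integral families of determinant one -/
def IsZ (x : Fam Ω m) : Prop :=
  ∃ γ : ∀ i : Fin r, Matrix (Fin (m i)) (Fin (m i)) ℤ, (∀ i, (γ i).det = 1) ∧
    ∀ i, x i = (γ i).map (Int.castRingHom Ω)

/-- the Zariski closure of the integral families of determinant one -/
def Zc (x : Fam Ω m) : Prop :=
  ∀ F : MvPolynomial (Σ i : Fin r, Fin (m i) × Fin (m i)) Ω, (∀ γ, IsZ γ → ev γ F = 0) → ev x F = 0

theorem IsZ.one : IsZ (1 : Fam Ω m) := by
  refine ⟨fun i => 1, fun i => Matrix.det_one, fun i => ?_⟩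
  rw [Pi.one_apply]
  exact (map_one (Int.castRingHom Ω).mapMatrix).symm

theorem IsZ.mul {x y : Fam Ω m} (hx : IsZ x) (hy : IsZ y) : IsZ (x * y) := by
  obtain ⟨γ, h1, h2⟩ := hx
  obtain ⟨δ, h3, h4⟩ := hy
  refine ⟨fun i => γ i * δ i, fun i => by rw [Matrix.det_mul, h1, h3, one_mul], fun i => ?_⟩
  rw [Pi.mul_apply, h2, h4]
  exact (map_mul (Int.castRingHom Ω).mapMatrix _ _).symm

theorem ev_mul (x τ : Fam Ω m) (F : MvPolynomial (Σ i : Fin r, Fin (m i) × Fin (m i)) Ω) :
    ev x (aeval (fun v : Σ i : Fin r, Fin (m i) × Fin (m i) =>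
      ∑ s, (X ⟨v.1, v.2.1, s⟩ : MvPolynomial (Σ i : Fin r, Fin (m i) × Fin (m i)) Ω) *
        C (τ v.1 s v.2.2)) F) = ev (x * τ) F := by
  unfold ev
  rw [← MvPolynomial.aeval_eq_eval, MvPolynomial.comp_aeval_apply, ← MvPolynomial.aeval_eq_eval]
  congr 2
  funext v
  simp only [map_sum, map_mul, aeval_X, aeval_C, Pi.mul_apply, Matrix.mul_apply]
  rfl

theorem line [CharZero Ω] (x y : Fam Ω m) (F : MvPolynomial (Σ i : Fin r, Fin (m i) × Fin (m i)) Ω)
    (h : ∀ k : ℤ, ev (x + (k : Ω) • y) F = 0) (t : Ω) : ev (x + t • y) F = 0 := by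
  let P : Polynomial Ω := aeval (fun v : Σ i : Fin r, Fin (m i) × Fin (m i) =>
    Polynomial.C (x v.1 v.2.1 v.2.2) + Polynomial.C (y v.1 v.2.1 v.2.2) * Polynomial.X) F
  have hP : ∀ t : Ω, P.eval t = ev (x + t • y) F := by
    intro t
    have h1 : P.eval t = Polynomial.aeval t P := (Polynomial.aeval_def t P).symm ▸ rfl
    rw [h1]
    show Polynomial.aeval t (aeval _ F) = _
    rw [MvPolynomial.comp_aeval_apply]
    unfold ev
    rw [← MvPolynomial.aeval_eq_eval]
    congr 2
    funext v
    simp only [map_add, map_mul, Polynomial.aeval_C, Polynomial.aeval_X, Pi.add_apply,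
      Matrix.add_apply, Pi.smul_apply, Matrix.smul_apply, smul_eq_mul, Algebra.algebraMap_self,
      RingHom.id_apply]
    ring
  have hP0 : P = 0 := by
    apply Polynomial.eq_zero_of_infinite_isRoot
    refine Set.Infinite.mono (s := Set.range fun k : ℤ => (k : Ω)) ?_
      (Set.infinite_range_of_injective Int.cast_injective)
    rintro _ ⟨k, rfl⟩
    show P.eval (k : Ω) = 0
    rw [hP, h]
  rw [← hP, hP0, Polynomial.eval_zero]

/-- the right stabiliser of the closure -/
def St (g : Fam Ω m) : Prop := ∀ x : Fam Ω m, Zc x → Zc (x * g)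

theorem St.one : St (1 : Fam Ω m) := fun x hx => by rwa [mul_one]

theorem St.mul {g h : Fam Ω m} (hg : St g) (hh : St h) : St (g * h) := fun x hx => by
  rw [← mul_assoc]
  exact hh _ (hg _ hx)

theorem St.transvec [CharZero Ω] (i : Fin r) {a b : Fin (m i)} (hab : a ≠ b) (t : Ω) :
    St (Pi.mulSingle i (transvection a b t) : Fam Ω m) := by
  classical
  have key : ∀ t : Ω, (Pi.mulSingle i (transvection a b t) : Fam Ω m) =
      (1 : Fam Ω m) + t • (Pi.single i (Matrix.single a b (1 : Ω)) : Fam Ω m) := by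
    intro t
    funext j
    by_cases hj : j = i
    · subst hj
      rw [Pi.mulSingle_eq_same, Pi.add_apply, Pi.smul_apply, Pi.single_eq_same, Pi.one_apply,
        transvection, Matrix.smul_single, smul_eq_mul, mul_one]
    · rw [Pi.mulSingle_eq_of_ne hj, Pi.add_apply, Pi.smul_apply, Pi.single_eq_of_ne hj,
        Pi.one_apply, smul_zero, add_zero]
  intro x hx F hF
  rw [← ev_mul]
  apply hx
  intro γ hγ
  rw [ev_mul, key, mul_add, mul_one, mul_smul_comm]
  apply line
  intro k
  apply hF
  have h1 : γ + (k : Ω) • (γ * (Pi.single i (Matrix.single a b (1 : Ω)) : Fam Ω m)) =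
      γ * (Pi.mulSingle i (transvection a b (k : Ω)) : Fam Ω m) := by
    rw [key, mul_add, mul_one, mul_smul_comm]
  rw [h1]
  refine hγ.mul ⟨Pi.mulSingle i (transvection a b k), fun j => ?_, fun j => ?_⟩
  · by_cases hj : j = i
    · subst hj
      rw [Pi.mulSingle_eq_same]
      exact det_transvection_of_ne a b hab k
    · rw [Pi.mulSingle_eq_of_ne hj, Matrix.det_one]
  · by_cases hj : j = i
    · subst hj
      rw [Pi.mulSingle_eq_same, Pi.mulSingle_eq_same]
      ext p q
      simp only [transvection, Matrix.add_apply, Matrix.map_apply, Matrix.one_apply,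
        Matrix.single_apply, map_add]
      congr 1
      · split_ifs <;> simp
      · split_ifs <;> simp
    · rw [Pi.mulSingle_eq_of_ne hj, Pi.mulSingle_eq_of_ne hj]
      exact (map_one (Int.castRingHom Ω).mapMatrix).symm

theorem St.two_diag [CharZero Ω] (i : Fin r) {a b : Fin (m i)} (hab : a ≠ b) (c d : Ω)
    (h : c * d = 1) :
    St (Pi.mulSingle i (diagonal (Function.update (Function.update (fun _ => (1 : Ω)) a c) b d)) :
      Fam Ω m) := by
  rw [← Pool.Agent.Helper98.TW.two_diag hab c d h]
  simp only [Pi.mulSingle_mul]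
  exact (((St.transvec i hab _).mul (St.transvec i hab.symm _)).mul (St.transvec i hab _)).mul
    (((St.transvec i hab _).mul (St.transvec i hab.symm _)).mul (St.transvec i hab _))

theorem St.diag [CharZero Ω] (i : Fin r) (D : Fin (m i) → Ω) (hD : ∏ a, D a = 1) :
    St (Pi.mulSingle i (diagonal D) : Fam Ω m) := by
  classical
  rcases Nat.eq_zero_or_pos (m i) with hm | hm
  · have h1 : (diagonal D : Matrix (Fin (m i)) (Fin (m i)) Ω) = 1 := by
      ext p q
      exact absurd p.2 (by omega)
    rw [h1, Pi.mulSingle_one]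
    exact St.one
  let o : Fin (m i) := ⟨0, hm⟩
  have hne : ∀ a, D a ≠ 0 := by
    intro a h
    rw [Finset.prod_eq_zero (Finset.mem_univ a) h] at hD
    exact zero_ne_one hD
  have key : ∀ s : Finset (Fin (m i)), o ∉ s →
      St (Pi.mulSingle i (diagonal fun b => if b ∈ s then D b else if b = o then
        ∏ a ∈ s, (D a)⁻¹ else 1) : Fam Ω m) := by
    intro s
    induction s using Finset.induction_on with
    | empty =>
      intro _
      have h1 : (diagonal fun b : Fin (m i) => if b ∈ (∅ : Finset (Fin (m i))) then D b else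
          if b = o then ∏ a ∈ (∅ : Finset (Fin (m i))), (D a)⁻¹ else 1) =
          (1 : Matrix (Fin (m i)) (Fin (m i)) Ω) := by
        rw [← Matrix.diagonal_one]
        congr 1
        funext b
        simp
      rw [h1, Pi.mulSingle_one]
      exact St.one
    | insert a s has ih =>
      intro ho
      rw [Finset.mem_insert, not_or] at ho
      have h1 := (ih ho.2).mul (St.two_diag i (Ne.symm ho.1) (D a) (D a)⁻¹
        (mul_inv_cancel₀ (hne a)))
      rw [← Pi.mulSingle_mul, Matrix.diagonal_mul_diagonal] at h1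
      have e1 : (fun b => if b ∈ insert a s then D b else if b = o then
          ∏ a ∈ insert a s, (D a)⁻¹ else 1) = fun b =>
          (if b ∈ s then D b else if b = o then ∏ a ∈ s, (D a)⁻¹ else 1) *
            Function.update (Function.update (fun _ => (1 : Ω)) a (D a)) o (D a)⁻¹ b := by
        funext b
        by_cases hb : b = o
        · subst hb
          rw [if_neg (by rw [Finset.mem_insert, not_or]; exact ho), if_pos rfl, if_neg ho.2,
            if_pos rfl, Function.update_self, Finset.prod_insert has, mul_comm]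
        · rw [Function.update_of_ne hb]
          by_cases hba : b = a
          · subst hba
            rw [if_pos (Finset.mem_insert_self _ _), if_neg has, if_neg hb, Function.update_self,
              one_mul]
          · rw [Function.update_of_ne hba, mul_one]
            by_cases hbs : b ∈ s
            · rw [if_pos (Finset.mem_insert_of_mem hbs), if_pos hbs]
            · rw [if_neg (by rw [Finset.mem_insert, not_or]; exact ⟨hba, hbs⟩), if_neg hb,
                if_neg hbs, if_neg hb]
      rw [e1]
      exact h1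
  have h1 := key (Finset.univ.erase o) (Finset.notMem_erase _ _)
  have e1 : (fun b => if b ∈ Finset.univ.erase o then D b else if b = o then
      ∏ a ∈ Finset.univ.erase o, (D a)⁻¹ else 1) = D := by
    funext b
    by_cases hb : b = o
    · subst hb
      rw [if_neg (Finset.notMem_erase _ _), if_pos rfl, Finset.prod_inv_distrib]
      have h2 := Finset.mul_prod_erase Finset.univ D (Finset.mem_univ o)
      rw [hD] at h2
      exact (eq_inv_of_mul_eq_one_left h2).symm
    · rw [if_pos (Finset.mem_erase.2 ⟨hb, Finset.mem_univ _⟩)]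
  rw [e1] at h1
  exact h1

theorem St.single [CharZero Ω] (i : Fin r) (M : Matrix (Fin (m i)) (Fin (m i)) Ω)
    (hM : M.det = 1) : St (Pi.mulSingle i M : Fam Ω m) := by
  refine diagonal_transvection_induction (fun N => St (Pi.mulSingle i N : Fam Ω m)) M ?_ ?_ ?_
  · intro D hD
    apply St.diag
    rwa [hM, Matrix.det_diagonal] at hD
  · intro t
    exact St.transvec i t.hij t.c
  · intro A B hA hB
    rw [Pi.mulSingle_mul]
    exact hA.mul hB

theorem St.all [CharZero Ω] (g : Fam Ω m) (hg : ∀ i, (g i).det = 1) : St g := by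
  classical
  have key : ∀ s : Finset (Fin r), St (fun i => if i ∈ s then g i else 1 : Fam Ω m) := by
    intro s
    induction s using Finset.induction_on with
    | empty => simpa using! St.one
    | insert a s has ih =>
      convert ih.mul (St.single a (g a) (hg a)) using 1
      funext i
      rw [Pi.mul_apply]
      by_cases hi : i = a
      · subst hi
        rw [if_pos (Finset.mem_insert_self _ _), if_neg has, Pi.mulSingle_eq_same, one_mul]
      · rw [Pi.mulSingle_eq_of_ne hi, mul_one]
        by_cases his : i ∈ s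
        · rw [if_pos (Finset.mem_insert_of_mem his), if_pos his]
        · rw [if_neg (by rw [Finset.mem_insert, not_or]; exact ⟨hi, his⟩), if_neg his]
  simpa using key Finset.univ

/-- **T4.** -/
theorem exists_int [CharZero Ω] (F : MvPolynomial (Σ i : Fin r, Fin (m i) × Fin (m i)) Ω)
    (u0 : ∀ i : Fin r, Matrix (Fin (m i)) (Fin (m i)) Ω) (h0 : ∀ i, (u0 i).det = 1)
    (hF : eval (fun v => u0 v.1 v.2.1 v.2.2) F ≠ 0) :
    ∃ u : ∀ i : Fin r, Matrix (Fin (m i)) (Fin (m i)) ℤ, (∀ i, (u i).det = 1) ∧
      eval (fun v => ((u v.1 v.2.1 v.2.2 : ℤ) : Ω)) F ≠ 0 := by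
  by_contra hcon
  push Not at hcon
  apply hF
  have h1 : Zc (1 * u0) := St.all u0 h0 1 (fun F hF => hF 1 IsZ.one)
  rw [one_mul] at h1
  apply h1 F
  rintro γ ⟨δ, h2, h3⟩
  have h4 := hcon δ h2
  unfold ev
  rw [← h4]
  congr 2
  funext v
  rw [h3]
  rfl

end

end Pool.Agent.Helper98.TW
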